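import Mathlib
import Pool.Agent.T2H96.DM.Main2

/-!
# The lower duality-map modulus of infinite-dimensional spaces (MP_8cc159_an)

For every infinite-dimensional real Banach space `X`, every `ε ∈ [0,2]` and `η > 0` there is
`ε' ∈ [0,2]` with `|ε' - ε| < η` and `d⁻_X(ε') < ε' + η`; if norming sequences have norm convergent
subsequences (reflexive spaces with the Kadec-Klee property), in particular if `X` is uniformly
convex, then `d⁻_X(ε) ≤ ε` for every `ε ∈ [0,2]`.
-/

set_option autoImplicit false

namespace Pool.Agent.Results.MP_8cc159_an.LowerModulus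

open Set Pool.T2H96.DM.Mod Pool.T2H96.DM.UC

universe u

/-- `d⁻_X(ε) ≤ ε` for infinite-dimensional `X`: up to arbitrarily small changes of `ε` and of the
value in general, exactly when norming sequences have norm convergent subsequences. -/
theorem result (X : Type u) [NormedAddCommGroup X] [NormedSpace ℝ X] [CompleteSpace X]
    (hX : ¬ FiniteDimensional ℝ X) (ε : ℝ) (hε : ε ∈ Icc (0 : ℝ) 2) :
    (distSet X ε).Nonempty ∧
    (∀ η > 0, ∃ ε' ∈ Icc (0 : ℝ) 2, |ε' - ε| < η ∧ (distSet X ε').Nonempty ∧
      dminus X ε' < ε' + η) ∧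
    (NormingCompact X → dminus X ε ≤ ε) ∧
    (UniformConvexSpace X → NormingCompact X) :=
  ⟨(part_a hX ε hε).1, fun η hη => by
      obtain ⟨ε', h1, h2, h3⟩ := part_b hX ε hε η hη
      exact ⟨ε', h1, h2, (part_a hX ε' h1).1, h3⟩, fun h => part_d h hX ε hε, fun h => by
      have := h
      exact normingCompact_of_uniformConvex⟩

end Pool.Agent.Results.MP_8cc159_an.LowerModulus
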