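import Mathlib
import Pool.Agent.T2H96.DM.Main

/-!
# The upper duality-map modulus of infinite-dimensional spaces (MP_8cc159_an)

For every infinite-dimensional real Banach space `X` and every `ε ∈ [0,2]`, `ε ≤ d⁺_X(ε)`.
-/

set_option autoImplicit false

namespace Pool.Agent.Results.MP_8cc159_an.UpperModulus

open Set Pool.T2H96.DM.Mod

universe u

/-- `ε ≤ d⁺_X(ε)` for every infinite-dimensional `X` and every `ε ∈ [0,2]`. -/
theorem result (X : Type u) [NormedAddCommGroup X] [NormedSpace ℝ X] [CompleteSpace X]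
    (hX : ¬ FiniteDimensional ℝ X) (ε : ℝ) (hε : ε ∈ Icc (0 : ℝ) 2) :
    (distSet X ε).Nonempty ∧ BddAbove (distSet X ε) ∧ ε ≤ dplus X ε :=
  ⟨(part_a hX ε hε).1, bddAbove ε, (part_a hX ε hε).2⟩

end Pool.Agent.Results.MP_8cc159_an.UpperModulus
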